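import Pool.Agent.helper52.HY.Spec
import Pool.Agent.helper54.V3.SpecT
import Pool.Agent.helper45.BR.Spec

/-!
# Riemann mapping theorem for bounded domains without holes (Koebe extremal argument)
-/

set_option autoImplicit false

open Complex Metric Set Filter Topology
open HY (UD T S RM UN)

noncomputable section

namespace PO

/-- the inverse of an injective holomorphic function is holomorphic. -/
theorem RMT_inv (hKO0 : V3.KO0_stmt) (U : Set ℂ) (hop : IsOpen U) (F : ℂ → ℂ) (hd : DifferentiableOn ℂ F U)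
    (hi : InjOn F U) : DifferentiableOn ℂ (Function.invFunOn F U) (F '' U) := by
  have hne : ∀ x ∈ U, deriv F x ≠ 0 := fun x hx => hKO0 F U hop hd hi _ hx
  have hg : ∀ x ∈ U, Function.invFunOn F U (F x) = x := fun x hx =>
    hi (Function.invFunOn_apply_mem (f := F) hx) hx (Function.invFunOn_apply_eq (f := F) hx)
  have hstr : ∀ x ∈ U, HasStrictDerivAt F (deriv F x) x := fun x hx =>
    (hd.analyticAt (hop.mem_nhds hx)).hasStrictDerivAt
  have hmap : ∀ x ∈ U, Filter.map F (𝓝 x) = 𝓝 (F x) := fun x hx =>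
    (hstr x hx).map_nhds_eq (hne x hx)
  rintro z ⟨x, hx, rfl⟩
  set g := Function.invFunOn F U with hgdef
  have hgx : g (F x) = x := hg x hx
  have hcont : ContinuousAt g (F x) := by
    have e1 : Tendsto (g ∘ F) (𝓝 x) (𝓝 x) := by
      refine Tendsto.congr' ?_ tendsto_id
      have e2 : ∀ᶠ y in 𝓝 x, y ∈ U := hop.mem_nhds hx
      filter_upwards [e2] with y hy
      exact (hg y hy).symm
    have e4 : Tendsto g (Filter.map F (𝓝 x)) (𝓝 x) := by
      rw [tendsto_map'_iff]
      exact e1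
    rw [hmap x hx] at e4
    unfold ContinuousAt
    rw [hgx]
    exact e4
  have hst' : HasDerivAt F (deriv F x) (g (F x)) := by
    rw [hgx]; exact (hstr x hx).hasDerivAt
  refine (HasDerivAt.of_local_left_inverse hcont hst' (hne x hx) ?_).differentiableAt.differentiableWithinAt
  have e5 : ∀ᶠ y in Filter.map F (𝓝 x), F (g y) = y := by
    rw [Filter.eventually_map]
    filter_upwards [hop.mem_nhds hx] with y hy
    rw [hg y hy]
  rw [hmap x hx] at e5
  exact e5

/-- the family of the extremal problem. -/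
structure Fam (U : Set ℂ) (p : ℂ) (f : ℂ → ℂ) : Prop where
  dif : DifferentiableOn ℂ f U
  inj : InjOn f U
  map : MapsTo f U UD
  val : f p = 0

/-- the improvement step of Koebe. -/
theorem RMT_step (hMOB : HY.MOB_stmt) (hKO0 : V3.KO0_stmt) (hLGH : BR.LGH_stmt) (U : Set ℂ) (hop : IsOpen U)
    (hco : IsConnected U) (hNH : BR.NoHole U) (p : ℂ) (hp : p ∈ U) (F : ℂ → ℂ) (hF : Fam U p F) (a : ℂ)
    (ha : a ∈ UD) (haF : ∀ z ∈ U, F z ≠ a) : ∃ h : ℂ → ℂ, Fam U p h ∧ ‖deriv F p‖ < ‖deriv h p‖ := by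
  obtain ⟨hm, hTaa, -, hdT, -, hiT, -, -, -, hdv, -, -⟩ := hMOB a ha
  have hUDo : IsOpen UD := isOpen_ball
  have h0 : (0 : ℂ) ∈ UD := by simp [UD]
  -- g
  have hgd : DifferentiableOn ℂ (fun z => T a (F z)) U := hdT.comp hF.dif hF.map
  have hg0 : ∀ z ∈ U, T a (F z) ≠ 0 := by
    intro z hz h
    have h1 : T a (F z) = T a a := by rw [h, hTaa]
    exact haF z hz (hiT (hF.map hz) ha h1)
  have hgm : ∀ z ∈ U, T a (F z) ∈ UD := fun z hz => (hm _ (hF.map hz)).1
  obtain ⟨l, hl, hle⟩ := hLGH U (fun z => T a (F z)) hop hco hNH hgd hg0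
  set s : ℂ → ℂ := fun z => Complex.exp (l z / 2) with hs
  have hs2 : ∀ z ∈ U, s z ^ 2 = T a (F z) := by
    intro z hz
    rw [hs, ← hle z hz]
    simp only
    rw [← Complex.exp_nat_mul]
    congr 1
    push_cast
    ring
  have hsd : DifferentiableOn ℂ s U := (hl.div_const 2).cexp
  have hsm : MapsTo s U UD := by
    intro z hz
    have h1 : ‖T a (F z)‖ < 1 := by
      have := hgm z hz
      simpa [UD] using this
    have h2 : ‖s z‖ ^ 2 < 1 := by
      rw [← norm_pow, hs2 z hz]; exact h1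
    have h3 : ‖s z‖ < 1 := by
      by_contra h
      push Not at h
      nlinarith
    simpa [UD] using h3
  have hsi : InjOn s U := by
    intro x hx y hy hxy
    have h1 : T a (F x) = T a (F y) := by rw [← hs2 x hx, ← hs2 y hy, hxy]
    exact hF.inj hx hy (hiT (hF.map hx) (hF.map hy) h1)
  set b := s p with hb
  have hbU : b ∈ UD := hsm hp
  obtain ⟨hmb, hTbb, -, hdTb, -, hiTb, -, -, -, hdvb, -, -⟩ := hMOB b hbU
  refine ⟨fun z => T b (s z), ⟨hdTb.comp hsd hsm, ?_, ?_, ?_⟩, ?_⟩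
  · intro x hx y hy hxy
    exact hsi hx hy (hiTb (hsm hx) (hsm hy) hxy)
  · intro z hz
    exact (hmb _ (hsm hz)).1
  · exact hTbb
  -- derivatives
  have hFp : DifferentiableAt ℂ F p := hF.dif.differentiableAt (hop.mem_nhds hp)
  have hsp : DifferentiableAt ℂ s p := hsd.differentiableAt (hop.mem_nhds hp)
  have hT0 : DifferentiableAt ℂ (T a) (F p) := by
    rw [hF.val]; exact hdT.differentiableAt (hUDo.mem_nhds h0)
  have hTb : DifferentiableAt ℂ (T b) (s p) := hdTb.differentiableAt (hUDo.mem_nhds hbU)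
  have hF' : deriv F p ≠ 0 := hKO0 F U hop hF.dif hF.inj p hp
  have e1 : deriv (fun z => T a (F z)) p = (1 - (‖a‖ : ℂ) ^ 2) * deriv F p := by
    have h1 : deriv (fun z => T a (F z)) p = deriv (T a) (F p) * deriv F p := by
      have := (hT0.hasDerivAt.comp p hFp.hasDerivAt).deriv
      exact this
    rw [h1, hF.val, hdv 0 h0]
    simp
  have e2 : deriv (fun z => T a (F z)) p = 2 * s p * deriv s p := by
    have h1 : (fun z => T a (F z)) =ᶠ[𝓝 p] fun z => s z ^ 2 := by
      filter_upwards [hop.mem_nhds hp] with z hz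
      exact (hs2 z hz).symm
    rw [h1.deriv_eq]
    have h2 : HasDerivAt (fun z => s z ^ 2) (((2 : ℕ) : ℂ) * s p ^ (2 - 1) * deriv s p) p :=
      hsp.hasDerivAt.pow 2
    rw [h2.deriv]
    push_cast
    ring
  have e3 : deriv (fun z => T b (s z)) p = deriv (T b) b * deriv s p :=
    (hTb.hasDerivAt.comp p hsp.hasDerivAt).deriv
  have hb1 : ‖b‖ < 1 := by simpa [UD] using hbU
  have hba : ‖b‖ ^ 2 = ‖a‖ := by
    have h1 : s p ^ 2 = T a (F p) := hs2 p hp
    have h2 : T a 0 = -a := by simp [T]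
    rw [hF.val, h2] at h1
    rw [hb, ← norm_pow, h1, norm_neg]
  have hb0 : 0 < ‖b‖ := by
    rw [norm_pos_iff, hb, hs]
    exact Complex.exp_ne_zero _
  have e4 : deriv (T b) b = 1 / (1 - (‖b‖ : ℂ) ^ 2) := by
    rw [hdvb b hbU]
    have h1 : (starRingEnd ℂ) b * b = (‖b‖ : ℂ) ^ 2 := by
      rw [mul_comm, Complex.mul_conj, Complex.normSq_eq_norm_sq]; push_cast; ring
    rw [h1]
    have h2 : (1 - (‖b‖ : ℂ) ^ 2) ≠ 0 := by
      have h3 : (1 - ‖b‖ ^ 2 : ℝ) ≠ 0 := by nlinarith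
      exact_mod_cast h3
    field_simp
  have h5 : 2 * ‖b‖ * ‖deriv s p‖ = (1 - ‖b‖ ^ 4) * ‖deriv F p‖ := by
    have h1 : ‖(1 - (‖a‖ : ℂ) ^ 2) * deriv F p‖ = ‖2 * s p * deriv s p‖ := by rw [← e1, e2]
    rw [norm_mul, norm_mul, norm_mul] at h1
    have h2 : ‖(1 - (‖a‖ : ℂ) ^ 2)‖ = 1 - ‖b‖ ^ 4 := by
      have h3 : (1 - (‖a‖ : ℂ) ^ 2) = ((1 - ‖a‖ ^ 2 : ℝ) : ℂ) := by push_cast; ring
      rw [h3, Complex.norm_real, Real.norm_of_nonneg]
      · rw [← hba]; ring
      · rw [← hba]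
        have : ‖b‖ ^ 2 ≤ 1 := by nlinarith
        nlinarith [sq_nonneg (‖b‖ ^ 2)]
    rw [h2, Complex.norm_ofNat, ← hb] at h1
    exact h1.symm
  have h6 : ‖deriv (fun z => T b (s z)) p‖ * (1 - ‖b‖ ^ 2) = ‖deriv s p‖ := by
    rw [e3, e4, norm_mul, norm_div, norm_one]
    have h3 : (1 - (‖b‖ : ℂ) ^ 2) = ((1 - ‖b‖ ^ 2 : ℝ) : ℂ) := by push_cast; ring
    have h4 : (0 : ℝ) < 1 - ‖b‖ ^ 2 := by nlinarith
    rw [h3, Complex.norm_real, Real.norm_of_nonneg h4.le]
    field_simp
  have hFn : 0 < ‖deriv F p‖ := norm_pos_iff.2 hF'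
  have h7 : 2 * ‖b‖ * (‖deriv (fun z => T b (s z)) p‖ * (1 - ‖b‖ ^ 2)) =
      (1 - ‖b‖ ^ 2) * (1 + ‖b‖ ^ 2) * ‖deriv F p‖ := by
    rw [h6, h5]; ring
  have h4 : (0 : ℝ) < 1 - ‖b‖ ^ 2 := by nlinarith
  have h8 : 2 * ‖b‖ * ‖deriv (fun z => T b (s z)) p‖ = (1 + ‖b‖ ^ 2) * ‖deriv F p‖ := by
    have : (1 - ‖b‖ ^ 2) * (2 * ‖b‖ * ‖deriv (fun z => T b (s z)) p‖) =
      (1 - ‖b‖ ^ 2) * ((1 + ‖b‖ ^ 2) * ‖deriv F p‖) := by linarith
    exact mul_left_cancel₀ h4.ne' this
  have h9 : 2 * ‖b‖ < 1 + ‖b‖ ^ 2 := by nlinarith [sq_nonneg (1 - ‖b‖)]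
  by_contra hcon
  push Not at hcon
  have : 2 * ‖b‖ * ‖deriv (fun z => T b (s z)) p‖ ≤ 2 * ‖b‖ * ‖deriv F p‖ :=
    mul_le_mul_of_nonneg_left hcon (by positivity)
  nlinarith


/-- the limit of a sequence in the family is in the family if its derivative at `p` is not `0`. -/
theorem RMT_lim (hTMO : V3.TMO_stmt) (hTDE : V3.TDE_stmt) (hTHU : V3.THU_stmt) (U : Set ℂ) (hop : IsOpen U)
    (hco : IsConnected U) (p : ℂ) (hp : p ∈ U) (f : ℕ → ℂ → ℂ) (hf : ∀ m, Fam U p (f m)) (s : ℝ) (hs : 0 < s)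
    (hlim : Tendsto (fun m => ‖deriv (f m) p‖) atTop (𝓝 s)) : ∃ F : ℂ → ℂ, Fam U p F ∧ ‖deriv F p‖ = s := by
  set Uf : Ultrafilter ℕ := hyperfilter ℕ with hUf
  have hle : (Uf : Filter ℕ) ≤ atTop := by
    have h1 := hyperfilter_le_cofinite (α := ℕ)
    rw [Nat.cofinite_eq_atTop] at h1
    exact h1
  have hbd : ∀ m, ∀ z ∈ U, ‖f m z‖ < 1 := by
    intro m z hz
    have := (hf m).map hz
    simpa [UD] using this
  obtain ⟨F, hFd, hFl⟩ := hTMO Uf f U hop (by
    intro x hx
    obtain ⟨r, hr, hrU⟩ := Metric.isOpen_iff.1 hop x hx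
    refine ⟨r, hr, 1, Eventually.of_forall fun m => ⟨(hf m).dif.mono hrU, fun y hy => (hbd m y (hrU hy)).le⟩⟩)
  obtain ⟨-, hFl1, -⟩ := hTDE Uf f F U hop (by
    intro x hx
    obtain ⟨r, hr, hrU⟩ := Metric.isOpen_iff.1 hop x hx
    exact ⟨r, hr, Eventually.of_forall fun m => (hf m).dif.mono hrU⟩) hFl
  have hpt : ∀ z ∈ U, Tendsto (fun m => f m z) Uf (𝓝 (F z)) := fun z hz => hFl.tendsto_at hz
  have hFp : F p = 0 := by
    have h1 := hpt p hp
    have h2 : Tendsto (fun m => f m p) Uf (𝓝 0) := by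
      have : (fun m => f m p) = fun _ => (0 : ℂ) := funext fun m => (hf m).val
      rw [this]; exact tendsto_const_nhds
    exact tendsto_nhds_unique h1 h2
  have hdp : ‖deriv F p‖ = s := by
    have h1 : Tendsto (fun m => ‖deriv (f m) p‖) Uf (𝓝 ‖deriv F p‖) := (hFl1.tendsto_at hp).norm
    exact tendsto_nhds_unique h1 (hlim.mono_left hle)
  have hF1 : ∀ z ∈ U, ‖F z‖ ≤ 1 := by
    intro z hz
    exact le_of_tendsto (hpt z hz).norm (Eventually.of_forall fun m => (hbd m z hz).le)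
  -- F is not constant
  have hnc : ∀ a : ℂ, ¬ ∀ᶠ z in 𝓝 a, a ∈ U ∧ F z = F a := by
    intro a ha
    have haU : a ∈ U := ha.self_of_nhds.1
    have h1 : EqOn F (fun _ => F a) U := by
      have hA : AnalyticOnNhd ℂ F U := hFd.analyticOnNhd hop
      refine hA.eqOn_of_preconnected_of_eventuallyEq analyticOnNhd_const hco.isPreconnected haU ?_
      filter_upwards [ha] with z hz
      exact hz.2
    have h2 : F =ᶠ[𝓝 p] fun _ => F a := by
      filter_upwards [hop.mem_nhds hp] with z hz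
      exact h1 hz
    have h3 : deriv F p = 0 := by rw [h2.deriv_eq]; simp
    rw [h3, norm_zero] at hdp
    exact hs.ne hdp
  refine ⟨F, ⟨hFd, ?_, ?_, hFp⟩, hdp⟩
  · -- injective
    intro a ha b hb hab
    by_contra hne
    obtain ⟨r₀, hr₀, hrU⟩ := Metric.isOpen_iff.1 hop b hb
    have hdab : 0 < dist a b := dist_pos.2 hne
    set r := min r₀ (dist a b) with hr
    have hrp : 0 < r := lt_min hr₀ hdab
    have hsub : ball b r ⊆ U := (ball_subset_ball (min_le_left _ _)).trans hrU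
    have hlu : TendstoLocallyUniformlyOn (fun m z => f m z - f m a) (fun z => F z - F a) Uf (ball b r) := by
      have h1 : TendstoLocallyUniformlyOn f F Uf (ball b r) := hFl.mono hsub
      rw [Metric.tendstoLocallyUniformlyOn_iff] at h1 ⊢
      intro ε hε x hx
      obtain ⟨t, ht, h2⟩ := h1 (ε / 2) (half_pos hε) x hx
      refine ⟨t, ht, ?_⟩
      have h3 : ∀ᶠ m in (Uf : Filter ℕ), dist (f m a) (F a) < ε / 2 :=
        (Metric.tendsto_nhds.1 (hpt a ha)) (ε / 2) (half_pos hε)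
      filter_upwards [h2, h3] with m h4 h5 y hy
      have h6 := h4 y hy
      rw [dist_eq_norm] at h6 h5 ⊢
      have h7 : F y - F a - (f m y - f m a) = (F y - f m y) + (f m a - F a) := by ring
      rw [h7]
      calc ‖(F y - f m y) + (f m a - F a)‖ ≤ ‖F y - f m y‖ + ‖f m a - F a‖ := norm_add_le _ _
        _ < ε / 2 + ε / 2 := add_lt_add h6 h5
        _ = ε := by ring
    have hz0 : F b - F a = 0 := by rw [hab]; ring
    have hex : ∃ x ∈ ball b r, F x - F a ≠ 0 := by
      by_contra hall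
      push Not at hall
      refine hnc b ?_
      filter_upwards [ball_mem_nhds b hrp] with x hx
      refine ⟨hb, ?_⟩
      have h1 := hall x hx
      rw [sub_eq_zero] at h1
      rw [h1, hab]
    have hzero := hTHU Uf (fun m z => f m z - f m a) (fun z => F z - F a) b r hrp
      (Eventually.of_forall fun m => ((hf m).dif.mono hsub).sub_const _) hlu hz0 hex r hrp
    obtain ⟨m, z, hz, hzm⟩ := hzero.exists
    have hza : z = a := by
      have h1 : f m z = f m a := sub_eq_zero.1 hzm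
      exact (hf m).inj (hsub hz) ha h1
    rw [hza, mem_ball] at hz
    have : dist a b < dist a b := lt_of_lt_of_le hz (min_le_right _ _)
    exact lt_irrefl _ this
  · -- maps into the open disc
    intro z hz
    have h1 := hF1 z hz
    rcases lt_or_eq_of_le h1 with h | h
    · simpa [UD] using h
    · exfalso
      have hmax : IsMaxOn (norm ∘ F) U z := by
        intro y hy
        change ‖F y‖ ≤ ‖F z‖
        rw [h]
        exact hF1 y hy
      have h2 := Complex.eqOn_of_isPreconnected_of_isMaxOn_norm hco.isPreconnected hop hFd hz hmax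
      refine hnc z ?_
      filter_upwards [hop.mem_nhds hz] with y hy
      exact ⟨hz, h2 hy⟩

/-- the Riemann mapping theorem for bounded domains without holes. -/
theorem RMT (hMOB : HY.MOB_stmt) (hKO0 : V3.KO0_stmt) (hLGH : BR.LGH_stmt) (hTMO : V3.TMO_stmt)
    (hTDE : V3.TDE_stmt) (hTHU : V3.THU_stmt) : ∀ U : Set ℂ, IsOpen U → IsConnected U → Bornology.IsBounded U →
    BR.NoHole U → ∀ p ∈ U, ∃ φ : ℂ → ℂ, RM U p φ := by
  intro U hop hco hbd hNH p hp
  -- the family is not empty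
  obtain ⟨R, hR0, hR⟩ : ∃ R : ℝ, 0 < R ∧ ∀ z ∈ U, ‖z - p‖ < R := by
    obtain ⟨R, hR⟩ := hbd.subset_ball p
    refine ⟨max R 1, lt_max_of_lt_right one_pos, fun z hz => ?_⟩
    have := hR hz
    rw [mem_ball, dist_eq_norm] at this
    exact lt_max_of_lt_left this
  have hRc : (R : ℂ) ≠ 0 := by exact_mod_cast hR0.ne'
  have hf0 : Fam U p (fun z => (z - p) / R) := by
    refine ⟨?_, ?_, ?_, ?_⟩
    · exact (differentiableOn_id.sub_const p).div_const _
    · intro x _ y _ hxy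
      simp only at hxy
      field_simp at hxy
      linear_combination hxy
    · intro z hz
      have h1 := hR z hz
      have h2 : ‖(z - p) / (R : ℂ)‖ < 1 := by
        rw [norm_div, Complex.norm_real, Real.norm_of_nonneg hR0.le, div_lt_one hR0]
        exact h1
      simpa [UD] using h2
    · simp
  obtain ⟨r, hr, hrU⟩ := Metric.isOpen_iff.1 hop p hp
  set A : Set ℝ := {x | ∃ f : ℂ → ℂ, Fam U p f ∧ ‖deriv f p‖ = x} with hA
  have hAn : A.Nonempty := ⟨_, _, hf0, rfl⟩
  have hAb : BddAbove A := by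
    refine ⟨1 / r, ?_⟩
    rintro x ⟨f, hf, rfl⟩
    have hmt : MapsTo f (ball p r) (closedBall (f p) 1) := by
      intro z hz
      have := hf.map (hrU hz)
      rw [hf.val]
      exact ball_subset_closedBall this
    exact Complex.norm_deriv_le_div_of_mapsTo_ball (hf.dif.mono hrU) hmt hr
  set s := sSup A with hs
  have hd0 : deriv (fun z : ℂ => (z - p) / (R : ℂ)) p = 1 / R := by
    have h1 : HasDerivAt (fun z : ℂ => (z - p) / (R : ℂ)) (1 / R) p :=
      ((hasDerivAt_id p).sub_const p).div_const _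
    exact h1.deriv
  have hspos : 0 < s := by
    have h1 : ‖deriv (fun z : ℂ => (z - p) / (R : ℂ)) p‖ ≤ s := le_csSup hAb ⟨_, hf0, rfl⟩
    have h2 : 0 < ‖deriv (fun z : ℂ => (z - p) / (R : ℂ)) p‖ := by
      rw [hd0, norm_pos_iff]
      exact one_div_ne_zero hRc
    linarith
  -- maximizing sequence
  obtain ⟨u, -, hu, huA⟩ := exists_seq_tendsto_sSup hAn hAb
  choose f hf hfu using huA
  have hlim : Tendsto (fun m => ‖deriv (f m) p‖) atTop (𝓝 s) := by
    have : (fun m => ‖deriv (f m) p‖) = u := funext hfu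
    rw [this]; exact hu
  obtain ⟨F, hF, hFs⟩ := RMT_lim hTMO hTDE hTHU U hop hco p hp f hf s hspos hlim
  -- F is onto
  have hon : F '' U = UD := by
    apply Subset.antisymm
    · rintro _ ⟨z, hz, rfl⟩
      exact hF.map hz
    · intro a ha
      by_contra hna
      have haF : ∀ z ∈ U, F z ≠ a := fun z hz h => hna ⟨z, hz, h⟩
      obtain ⟨h, hh, hlt⟩ := RMT_step hMOB hKO0 hLGH U hop hco hNH p hp F hF a ha haF
      have h1 : ‖deriv h p‖ ≤ s := le_csSup hAb ⟨_, hh, rfl⟩
      rw [hFs] at hlt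
      linarith
  have hinv := RMT_inv hKO0 U hop F hF.dif hF.inj
  rw [hon] at hinv
  have hg : ∀ x ∈ U, Function.invFunOn F U (F x) = x := fun x hx =>
    hF.inj (Function.invFunOn_apply_mem (f := F) hx) hx (Function.invFunOn_apply_eq (f := F) hx)
  have hg2 : ∀ y ∈ UD, Function.invFunOn F U y ∈ U ∧ F (Function.invFunOn F U y) = y := by
    intro y hy
    rw [← hon] at hy
    exact ⟨Function.invFunOn_mem hy, Function.invFunOn_eq hy⟩
  refine ⟨Function.invFunOn F U, hinv, ?_, ?_, ?_⟩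
  · intro x hx y hy hxy
    rw [← (hg2 x hx).2, ← (hg2 y hy).2, hxy]
  · apply Subset.antisymm
    · rintro _ ⟨y, hy, rfl⟩
      exact (hg2 y hy).1
    · intro x hx
      exact ⟨F x, hF.map hx, hg x hx⟩
  · have := hg p hp
    rw [hF.val] at this
    exact this


/-- frontiers of complementary components. -/
theorem RMT_frontier (Γ : Set ℂ) (hΓ : IsCompact Γ) (p : ℂ) :
    frontier (connectedComponentIn Γᶜ p) ⊆ Γ := by
  intro q hq
  by_contra hqΓ
  have ho : IsOpen Γᶜ := hΓ.isClosed.isOpen_compl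
  have hN : IsOpen (connectedComponentIn Γᶜ p) := ho.connectedComponentIn
  have hM : IsOpen (connectedComponentIn Γᶜ q) := ho.connectedComponentIn
  have hqM : q ∈ connectedComponentIn Γᶜ q := mem_connectedComponentIn hqΓ
  have hcl : q ∈ closure (connectedComponentIn Γᶜ p) := hq.1
  obtain ⟨z, hz1, hz2⟩ := mem_closure_iff.1 hcl _ hM hqM
  have e1 := connectedComponentIn_eq hz1
  have e2 := connectedComponentIn_eq hz2
  have hqN : q ∈ connectedComponentIn Γᶜ p := by
    rw [e2, ← e1]; exact hqM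
  have := hq.2
  rw [hN.interior_eq] at this
  exact this hqN

/-- components of `{‖g‖ < R}` (`g` entire) are open, connected and without holes. -/
theorem NHL (g : ℂ → ℂ) (hg : Differentiable ℂ g) (R : ℝ) (p : ℂ) (hp : ‖g p‖ < R) :
    IsOpen (connectedComponentIn {z | ‖g z‖ < R} p) ∧ IsConnected (connectedComponentIn {z | ‖g z‖ < R} p) ∧
    p ∈ connectedComponentIn {z | ‖g z‖ < R} p ∧ BR.NoHole (connectedComponentIn {z | ‖g z‖ < R} p) := by
  have hWo : IsOpen {z | ‖g z‖ < R} := isOpen_lt hg.continuous.norm continuous_const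
  have hpW : p ∈ {z | ‖g z‖ < R} := hp
  refine ⟨hWo.connectedComponentIn, isConnected_connectedComponentIn_iff.2 hpW, mem_connectedComponentIn hpW, ?_⟩
  intro Γ hΓU hΓ q hq hb
  have hsubW : connectedComponentIn {z | ‖g z‖ < R} p ⊆ {z | ‖g z‖ < R} := connectedComponentIn_subset _ _
  have hUo : IsOpen (connectedComponentIn {z | ‖g z‖ < R} p) := hWo.connectedComponentIn
  have ho : IsOpen Γᶜ := hΓ.isClosed.isOpen_compl
  have hN : IsOpen (connectedComponentIn Γᶜ q) := ho.connectedComponentIn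
  have hqN : q ∈ connectedComponentIn Γᶜ q := mem_connectedComponentIn hq
  have hfr := RMT_frontier Γ hΓ q
  have hne : (frontier (connectedComponentIn Γᶜ q)).Nonempty := by
    rw [nonempty_iff_ne_empty]
    intro h0
    have hcl : IsClopen (connectedComponentIn Γᶜ q) := isClopen_iff_frontier_eq_empty.2 h0
    rcases isClopen_iff.1 hcl with h | h
    · rw [h] at hqN; exact hqN
    · rw [h] at hb
      exact NormedSpace.unbounded_univ ℝ ℂ hb
  obtain ⟨y, hy⟩ := hne
  have hΓn : Γ.Nonempty := ⟨y, hfr hy⟩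
  obtain ⟨x₀, hx₀, hmax⟩ := hΓ.exists_isMaxOn hΓn (hg.continuous.norm.continuousOn)
  have hx₀R : ‖g x₀‖ < R := hsubW (hΓU hx₀)
  have hNW : connectedComponentIn Γᶜ q ⊆ {z | ‖g z‖ < R} := by
    intro z hz
    have h1 : ‖g z‖ ≤ ‖g x₀‖ := by
      refine Complex.norm_le_of_forall_mem_frontier_norm_le hb ?_ ?_ (subset_closure hz)
      · exact hg.diffContOnCl
      · intro w hw
        exact hmax (hfr hw)
    exact lt_of_le_of_lt h1 hx₀R
  have hyU : y ∈ connectedComponentIn {z | ‖g z‖ < R} p := hΓU (hfr hy)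
  obtain ⟨z, hz1, hz2⟩ := mem_closure_iff.1 hy.1 _ hUo hyU
  -- `z` is in both; the component of `z` contains the hole
  rw [connectedComponentIn_eq hz1]
  exact isPreconnected_connectedComponentIn.subset_connectedComponentIn hz2 hNW

/-- level sets of polynomials are bounded. -/
theorem LSB (P : Polynomial ℂ) (hP : 1 ≤ P.natDegree) (R : ℝ) : Bornology.IsBounded {z | ‖P.eval z‖ < R} := by
  have h1 : Tendsto (fun z : ℂ => ‖P.eval z‖) (cocompact ℂ) atTop := by
    have hdeg : 0 < P.degree := Polynomial.natDegree_pos_iff_degree_pos.1 (by omega)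
    exact P.tendsto_norm_atTop hdeg tendsto_norm_cocompact_atTop
  have h2 : ∀ᶠ z in cocompact ℂ, R ≤ ‖P.eval z‖ := h1.eventually_ge_atTop R
  rw [Filter.eventually_iff, mem_cocompact] at h2
  obtain ⟨t, ht, h3⟩ := h2
  refine ht.isBounded.subset ?_
  intro z hz
  by_contra hzt
  have h4 : R ≤ ‖P.eval z‖ := h3 hzt
  have h5 : ‖P.eval z‖ < R := hz
  linarith

/-- Riemann maps of the components of `{‖P‖ < R}`. -/
theorem RMP (hMOB : HY.MOB_stmt) (hKO0 : V3.KO0_stmt) (hLGH : BR.LGH_stmt) (hTMO : V3.TMO_stmt)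
    (hTDE : V3.TDE_stmt) (hTHU : V3.THU_stmt) (P : Polynomial ℂ) (hP : 1 ≤ P.natDegree) (R : ℝ) (p : ℂ)
    (hp : ‖P.eval p‖ < R) : ∃ φ : ℂ → ℂ, RM (connectedComponentIn {z | ‖P.eval z‖ < R} p) p φ := by
  obtain ⟨h1, h2, h3, h4⟩ := NHL (fun z => P.eval z) P.differentiable R p hp
  exact RMT hMOB hKO0 hLGH hTMO hTDE hTHU _ h1 h2
    ((LSB P hP R).subset (connectedComponentIn_subset _ _)) h4 p h3

end PO
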