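import Pool.Agent.helper75.PO.RMT
import Pool.Agent.helper25.HY.MOB
import Pool.Agent.helper38.V3.KO0
import Pool.Agent.helper57.V3.TMO
import Pool.Agent.helper13.V3.TDE
import Pool.Agent.helper91.V3.THU
import Pool.Agent.helper91.BR.WND
import Pool.Agent.helper84.BR.CPF
import Pool.Agent.helper65.BR.POL
import Pool.Agent.helper49.BR.PRM
import Pool.Agent.helper29.BR.LGH

/-!
# Riemann mapping theorem: closed forms
-/

set_option autoImplicit false

open Complex Metric Set Filter Topology
open HY (UD RM)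

noncomputable section

namespace PO

/-- logarithms of zero free functions on domains without holes. -/
theorem LGH_p : BR.LGH_stmt := BR.LGH (BR.PRM (BR.POL BR.WND BR.CPF))

/-- the Riemann mapping theorem for bounded domains without holes. -/
theorem RMT_p : ∀ U : Set ℂ, IsOpen U → IsConnected U → Bornology.IsBounded U →
    BR.NoHole U → ∀ p ∈ U, ∃ φ : ℂ → ℂ, RM U p φ :=
  RMT HY.MOB V3.KO0 LGH_p V3.TMO V3.TDE V3.THU

/-- Riemann maps of the components of `{‖P‖ < R}`, `P` a polynomial. -/
theorem RMP_p : ∀ (P : Polynomial ℂ), 1 ≤ P.natDegree → ∀ (R : ℝ) (p : ℂ), ‖P.eval p‖ < R →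
    ∃ φ : ℂ → ℂ, RM (connectedComponentIn {z | ‖P.eval z‖ < R} p) p φ :=
  fun P hP R p hp => RMP HY.MOB V3.KO0 LGH_p V3.TMO V3.TDE V3.THU P hP R p hp

end PO
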